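import Pool.Agent.Helper18.RD.Stmts8
import Pool.Agent.Helper45.RD6.BDJ

/-! Project RD, eighth form, row BDJR: on a large set of points few small primes of `q` are
unbalanced if few pairwise coprime moduli in `(z / 2, z]` are coprime to `q`. -/

set_option autoImplicit false

namespace Pool.Agent.Helper18.RD

open Finset

namespace S27

open S45

theorem jac_prod (a : ℤ) (s : Finset ℕ) (hs : ∀ p ∈ s, p.Prime) :
    jacobiSym a (∏ p ∈ s, p) = ∏ p ∈ s, jacobiSym a p := by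
  classical
  induction s using Finset.induction_on with
  | empty => simp
  | insert p s hp ih =>
    rw [prod_insert hp, prod_insert hp, jacobiSym.mul_right' a
      (hs p (mem_insert_self _ _)).ne_zero
      (prod_ne_zero_iff.2 (fun x hx => (hs x (mem_insert_of_mem hx)).ne_zero)),
      ih (fun x hx => hs x (mem_insert_of_mem hx))]

theorem jac_sqf (a : ℤ) {r : ℕ} (hr : Squarefree r) :
    jacobiSym a r = ∏ p ∈ r.primeFactors, jacobiSym a p := by
  conv_lhs => rw [← Nat.prod_primeFactors_of_squarefree hr]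
  exact jac_prod a _ (fun p hp => Nat.prime_of_mem_primeFactors hp)

theorem jac_sq_nonneg {X : ℤ} (r : ℕ) (hX : IsSquare X) : 0 ≤ jacobiSym X r := by
  obtain ⟨t, rfl⟩ := hX
  rw [jacobiSym.mul_left]
  exact mul_self_nonneg _

theorem jac_sq_one {X : ℤ} {r : ℕ} (hX : IsSquare X) (hc : Nat.Coprime r X.natAbs) :
    jacobiSym X r = 1 := by
  obtain ⟨t, rfl⟩ := hX
  rw [jacobiSym.mul_left, ← sq]
  apply jacobiSym.sq_one
  have h1 : Nat.Coprime r t.natAbs := by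
    rw [Int.natAbs_mul] at hc
    exact hc.coprime_mul_right_right
  have h2 : Nat.gcd t.natAbs (r : ℤ).natAbs = 1 := by
    rw [Int.natAbs_natCast]; exact h1.symm
  exact h2

theorem count_cop (R : Finset ℕ) (hR : ∀ r ∈ R, ∀ r' ∈ R, r ≠ r' → Nat.Coprime r r') (X : ℤ)
    (hX : X ≠ 0) :
    2 ^ (R.filter (fun r : ℕ => ¬ Nat.Coprime r X.natAbs)).card ≤ X.natAbs := by
  classical
  have h0 : X.natAbs ≠ 0 := Int.natAbs_ne_zero.2 hX
  have hcard : (R.filter (fun r : ℕ => ¬ Nat.Coprime r X.natAbs)).card ≤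
      X.natAbs.primeFactors.card := by
    refine card_le_card_of_injOn (fun r => (Nat.gcd r X.natAbs).minFac) ?_ ?_
    · intro r hr
      have hr' := (mem_filter.1 (Finset.mem_coe.1 hr))
      rw [Finset.mem_coe, Nat.mem_primeFactors]
      exact ⟨Nat.minFac_prime hr'.2, (Nat.minFac_dvd _).trans (Nat.gcd_dvd_right _ _), h0⟩
    · intro r hr r' hr' h
      have h1 := (mem_filter.1 (Finset.mem_coe.1 hr))
      have h2 := (mem_filter.1 (Finset.mem_coe.1 hr'))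
      by_contra hne
      have hc := hR r h1.1 r' h2.1 hne
      have d1 : (Nat.gcd r X.natAbs).minFac ∣ r :=
        (Nat.minFac_dvd _).trans (Nat.gcd_dvd_left _ _)
      have d2 : (Nat.gcd r X.natAbs).minFac ∣ r' := by
        have : (Nat.gcd r X.natAbs).minFac = (Nat.gcd r' X.natAbs).minFac := h
        rw [this]
        exact (Nat.minFac_dvd _).trans (Nat.gcd_dvd_left _ _)
      have hp := Nat.minFac_prime h1.2
      have := Nat.dvd_gcd d1 d2
      rw [hc] at this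
      exact hp.one_lt.ne' (Nat.dvd_one.1 this)
  calc 2 ^ (R.filter (fun r : ℕ => ¬ Nat.Coprime r X.natAbs)).card ≤
        2 ^ X.natAbs.primeFactors.card := Nat.pow_le_pow_right (by norm_num) hcard
    _ = ∏ _p ∈ X.natAbs.primeFactors, 2 := by rw [prod_const]
    _ ≤ ∏ p ∈ X.natAbs.primeFactors, p :=
        prod_le_prod (fun _ _ => Nat.zero_le _)
          (fun p hp => (Nat.prime_of_mem_primeFactors hp).two_le)
    _ ≤ X.natAbs := Nat.le_of_dvd (Nat.pos_of_ne_zero h0) (Nat.prod_primeFactors_dvd _)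

theorem count_cop_real (R : Finset ℕ) (hR : ∀ r ∈ R, ∀ r' ∈ R, r ≠ r' → Nat.Coprime r r')
    (X : ℤ) (hX : X ≠ 0) (B : ℝ) (hB : |(X : ℝ)| ≤ B) :
    ((R.filter (fun r : ℕ => ¬ Nat.Coprime r X.natAbs)).card : ℝ) * Real.log 2 ≤
      Real.log B := by
  have h1 := count_cop R hR X hX
  have h2 : ((2 : ℝ) ^ (R.filter (fun r : ℕ => ¬ Nat.Coprime r X.natAbs)).card) ≤ B := by
    have h3 : ((2 ^ (R.filter (fun r : ℕ => ¬ Nat.Coprime r X.natAbs)).card : ℕ) : ℝ) ≤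
        ((X.natAbs : ℕ) : ℝ) := by exact_mod_cast h1
    rw [Nat.cast_natAbs, Int.cast_abs] at h3
    push_cast at h3
    linarith
  have h3 := Real.log_le_log (by positivity) h2
  rwa [Real.log_pow] at h3

theorem final_ineqR (C1 T E n s t W : ℝ) (hC1 : 0 < C1) (hT : 1 ≤ T) (hE : E = C1 * T)
    (hn : 0 < n) (hs : 0 < s)
    (ha : t * (n / 2) ^ 2 ≤ n * s ^ 2 + 4 * W * n ^ 2 * s)
    (hb : s ^ 2 ≤ E * t) (hc : 128 * E * W ≤ s) (hd : 32 * E ≤ n) : False := by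
  have hE0 : 0 < E := by rw [hE]; positivity
  have h2 : s ^ 2 * (n / 2) ^ 2 ≤ E * (n * s ^ 2 + 4 * W * n ^ 2 * s) := by
    calc s ^ 2 * (n / 2) ^ 2 ≤ E * t * (n / 2) ^ 2 := by gcongr
      _ = E * (t * (n / 2) ^ 2) := by ring
      _ ≤ _ := by gcongr
  have h3 : 32 * (E * (n * s ^ 2)) ≤ n ^ 2 * s ^ 2 := by
    calc 32 * (E * (n * s ^ 2)) = (32 * E) * (n * s ^ 2) := by ring
      _ ≤ n * (n * s ^ 2) := by gcongr
      _ = _ := by ring
  have h4 : 32 * (E * (4 * W * n ^ 2 * s)) ≤ n ^ 2 * s ^ 2 := by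
    calc 32 * (E * (4 * W * n ^ 2 * s)) = (128 * E * W) * (n ^ 2 * s) := by ring
      _ ≤ s * (n ^ 2 * s) := by gcongr
      _ = _ := by ring
  have h6 : 0 < n ^ 2 * s ^ 2 := by positivity
  nlinarith [h2, h3, h4, h6]

end S27

open S45 S27

theorem st_BDJR (h1 : ST_MO1) (h2 : ST_ENE) (h3 : ST_ENP) (h4 : ST_SMOR) : ST_BDJR := by
  classical
  intro K hK
  obtain ⟨C1, hC1, hE⟩ := h2 K hK
  refine ⟨128 * C1 + 2400, by linarith, ?_⟩
  intro N q P z D S J U R e c d k w m hN hq hz hD hDat hDN hJS hU hbal hPD hP hMR hJ hR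
  obtain ⟨T, hT⟩ : ∃ T : ℝ, T = D ^ (2 * K) := ⟨_, rfl⟩
  have hT1 : 1 ≤ T := by rw [hT]; exact one_le_pow₀ hD
  rw [← hT] at hP hJ hR
  have hNr : (1 : ℝ) ≤ N := by exact_mod_cast hN
  have hzr : (1 : ℝ) ≤ z := by exact_mod_cast hz
  obtain ⟨W, hW⟩ : ∃ W : ℝ, W = (z : ℝ) + N / z := ⟨_, rfl⟩
  have hW1 : 1 ≤ W := by
    rw [hW]
    have : (0 : ℝ) ≤ N / z := by positivity
    linarith
  rw [← hW] at hJ
  have hL0 : 0 ≤ Real.log N := Real.log_natCast_nonneg N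
  have hTW : (1 : ℝ) ≤ T * W := one_le_mul_of_one_le_of_one_le hT1 hW1
  have hJ16 : 16 ≤ J.card := by
    have h5 : (16 : ℝ) ≤ J.card := by
      calc (16 : ℝ) ≤ (128 * C1 + 2400) * 1 := by linarith
        _ ≤ (128 * C1 + 2400) * (T * W) := by gcongr
        _ = (128 * C1 + 2400) * T * W := by ring
        _ ≤ J.card := hJ
    exact_mod_cast h5
  have hJne : J.Nonempty := card_pos.1 (by omega)
  have hd : ∀ n ∈ J, ∀ n' ∈ J, n ≠ n' → d n n' ≠ 0 ∧ |d n n'| ≤ 2 * N := by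
    intro n hn n' hn' hne
    have hcd := hDat.cd n (hJS hn) n' (hJS hn') hne
    have hnN : n < N := mem_range.1 (hDat.sub (hJS hn))
    have hn'N : n' < N := mem_range.1 (hDat.sub (hJS hn'))
    have hne' : ((n : ℤ) - n') ≠ 0 := sub_ne_zero.2 (by exact_mod_cast hne)
    have hk : k ≠ 0 := by rcases hDat.kap with h | h <;> rw [h] <;> norm_num
    have hk2 : |k| ≤ 2 := by rcases hDat.kap with h | h <;> rw [h] <;> norm_num
    have hprod : c n n' * d n n' ≠ 0 := by rw [hcd]; exact mul_ne_zero hk hne'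
    have hc0 : c n n' ≠ 0 := left_ne_zero_of_mul hprod
    have hd0 : d n n' ≠ 0 := right_ne_zero_of_mul hprod
    refine ⟨hd0, ?_⟩
    have h5 : |c n n'| * |d n n'| = |k| * |(n : ℤ) - n'| := by rw [← abs_mul, ← abs_mul, hcd]
    have h6 : 1 ≤ |c n n'| := Int.one_le_abs hc0
    have h7 : |(n : ℤ) - n'| ≤ N := by rw [abs_le]; constructor <;> omega
    calc |d n n'| ≤ |c n n'| * |d n n'| := le_mul_of_one_le_left (abs_nonneg _) h6
      _ = |k| * |(n : ℤ) - n'| := h5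
      _ ≤ 2 * N := mul_le_mul hk2 h7 (abs_nonneg _) (by norm_num)
  have hU1 : ∀ p ∈ U, (J.card : ℤ) ^ 4 ≤ 4 * ∑ t ∈ T4 J, jacobiSym (cyc d t) p := by
    intro p hp
    have hpp : p ∈ OP q := (mem_filter.1 (hU hp)).1
    exact h1 N q p S J e c d k w hDat hJS hJ16 hpp (hbal p hp)
  have hU2 : ∀ p ∈ U, p.Prime ∧ p ≠ 2 ∧ p ≤ P := by
    intro p hp
    have h := hU hp
    simp only [PP, OP, mem_filter, mem_erase] at h
    exact ⟨Nat.prime_of_mem_primeFactors h.1.2, h.1.1, h.2⟩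
  have hP' : C1 * (N : ℝ) ^ 8 * D ^ (2 * K) ≤ (P : ℝ) ^ (2 * K) := by
    rw [← hT]
    refine le_trans ?_ hP
    have h5 : 0 ≤ (N : ℝ) ^ 8 * T := by positivity
    nlinarith
  have hM2 := hE N P D J U d hN hD hJne hd hU2 hPD hP' hU1
  rw [← hT] at hM2
  obtain ⟨E, hEdef⟩ : ∃ E : ℝ, E = C1 * T := ⟨_, rfl⟩
  rw [← hEdef] at hM2
  have hE0 : 0 < E := by rw [hEdef]; positivity
  obtain ⟨x, hx, y0, hy0, B, hxy, hB0, hB1, hH⟩ := h3 N J d E hN hE0 hJne hd hM2
  obtain ⟨X, hX⟩ : ∃ X : ℕ × ℕ → ℤ, X = fun z => d z.1 z.2 * d z.1 y0 * d x z.2 * d x y0 * B :=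
    ⟨_, rfl⟩
  obtain ⟨H, hHdef⟩ : ∃ H : Finset (ℕ × ℕ), H = (J ×ˢ J).filter (fun z => z.1 ≠ z.2 ∧
    z.1 ≠ y0 ∧ x ≠ z.2 ∧ IsSquare (d z.1 z.2 * d z.1 y0 * d x z.2 * d x y0 * B)) := ⟨_, rfl⟩
  rw [← hHdef] at hH
  have hHmem : ∀ z ∈ H, z.1 ∈ J ∧ z.2 ∈ J ∧ z.1 ≠ z.2 ∧ z.1 ≠ y0 ∧ x ≠ z.2 ∧ IsSquare (X z) := by
    intro z hz
    rw [hHdef, mem_filter, mem_product] at hz
    rw [hX]
    exact ⟨hz.1.1, hz.1.2, hz.2.1, hz.2.2.1, hz.2.2.2.1, hz.2.2.2.2⟩
  have hch : ∀ p : ℕ, ∃ g : ℕ → ℤ, (∀ n, g n = 1 ∨ g n = -1) ∧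
      (p.Prime → p ≠ 2 → ¬ p ∣ q → ∀ n ∈ S, ∀ n' ∈ S, n ≠ n' →
        jacobiSym (m n + m n') p = jacobiSym (d n n') p * g n * g n') := by
    intro p
    by_cases hp : p.Prime ∧ p ≠ 2 ∧ ¬ p ∣ q
    · obtain ⟨g, hg, hg'⟩ := hDN.chn p hp.1 hp.2.1 hp.2.2
      exact ⟨g, hg, fun _ _ _ => hg'⟩
    · exact ⟨fun _ => 1, fun _ => Or.inl rfl, fun a1 a2 a3 => absurd ⟨a1, a2, a3⟩ hp⟩
  choose g0 hg0 hg0' using hch
  obtain ⟨g, hgdef⟩ : ∃ g : ℕ → ℕ → ℤ, g = fun r n => ∏ p ∈ r.primeFactors, g0 p n := ⟨_, rfl⟩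
  have hgsq : ∀ r n, g r n * g r n = 1 := by
    intro r n
    rw [hgdef]
    show (∏ p ∈ r.primeFactors, g0 p n) * (∏ p ∈ r.primeFactors, g0 p n) = 1
    rw [← prod_mul_distrib]
    refine prod_eq_one (fun p _ => ?_)
    rcases hg0 p n with h | h <;> rw [h] <;> norm_num
  have hgabs : ∀ r n, |g r n| = 1 := by
    intro r n
    have h5 := hgsq r n
    have h6 : |g r n| * |g r n| = 1 := by rw [abs_mul_abs_self]; exact h5
    nlinarith [abs_nonneg (g r n)]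
  have hRpr : ∀ r ∈ R, ∀ p ∈ r.primeFactors, p.Prime ∧ p ≠ 2 ∧ ¬ p ∣ q := by
    intro r hr p hp
    obtain ⟨_, hodd, hcop, _, _⟩ := hMR.1 r hr
    have hpr := Nat.prime_of_mem_primeFactors hp
    have hdv := Nat.dvd_of_mem_primeFactors hp
    refine ⟨hpr, ?_, ?_⟩
    · rintro rfl
      exact (Nat.not_even_iff_odd.2 hodd) (even_iff_two_dvd.2 hdv)
    · intro h
      have h5 := Nat.dvd_gcd hdv h
      rw [hcop] at h5
      exact hpr.one_lt.ne' (Nat.dvd_one.1 h5)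
  have hg' : ∀ r ∈ R, ∀ n ∈ S, ∀ n' ∈ S, n ≠ n' →
      jacobiSym (m n + m n') r = jacobiSym (d n n') r * g r n * g r n' := by
    intro r hr n hn n' hn' hne
    have hsq := (hMR.1 r hr).1
    rw [jac_sqf _ hsq, jac_sqf (d n n') hsq, hgdef]
    show _ = (∏ p ∈ r.primeFactors, jacobiSym (d n n') p) * (∏ p ∈ r.primeFactors, g0 p n) *
      (∏ p ∈ r.primeFactors, g0 p n')
    rw [← prod_mul_distrib, ← prod_mul_distrib]
    refine prod_congr rfl (fun p hp => ?_)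
    obtain ⟨a1, a2, a3⟩ := hRpr r hr p hp
    exact hg0' p a1 a2 a3 n hn n' hn' hne
  obtain ⟨F, hF⟩ : ∃ F : ℕ → ℕ → ℤ, F = fun p i =>
    jacobiSym (d i y0 * d x y0 * B) p * g p i := ⟨_, rfl⟩
  obtain ⟨G, hG⟩ : ∃ G : ℕ → ℕ → ℤ, G = fun p j => jacobiSym (d x j) p * g p j := ⟨_, rfl⟩
  have hF1 : ∀ p n, |F p n| ≤ 1 := by
    intro p n
    rw [hF]
    show |jacobiSym (d n y0 * d x y0 * B) p * g p n| ≤ 1
    rw [abs_mul, hgabs, mul_one]
    exact abs_jac _ _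
  have hG1 : ∀ p n, |G p n| ≤ 1 := by
    intro p n
    rw [hG]
    show |jacobiSym (d x n) p * g p n| ≤ 1
    rw [abs_mul, hgabs, mul_one]
    exact abs_jac _ _
  have hlog2 : (0.6931 : ℝ) < Real.log 2 := by
    have := Real.log_two_gt_d9; linarith
  have hdif : ∀ i ∈ J, ∀ j ∈ J, ∀ r ∈ R, (r : ℤ) ∣ m i - m j → (r : ℤ) ∣ (i : ℤ) - j := by
    intro i hi j hj r hr hdv
    have hsq := (hMR.1 r hr).1
    rw [Int.natCast_dvd]
    rw [← Nat.prod_primeFactors_of_squarefree hsq]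
    refine Finset.prod_primes_dvd _ (fun p hp => (Nat.prime_of_mem_primeFactors hp).prime) ?_
    intro p hp
    obtain ⟨a1, a2, a3⟩ := hRpr r hr p hp
    rw [← Int.natCast_dvd]
    refine hDN.dif i (hJS hi) j (hJS hj) p a1 a3 (dvd_trans ?_ hdv)
    exact_mod_cast Nat.dvd_of_mem_primeFactors hp
  have hS := h4 N z J R m F G hN hz (fun i hi => hDat.sub (hJS hi))
    (fun r hr => ⟨(hMR.1 r hr).1, (hMR.1 r hr).2.1, (hMR.1 r hr).2.2.2⟩) hMR.2 hF1 hG1 hdif
  -- lower bound on H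
  have hterm : ∀ z ∈ H, (R.card : ℤ) -
      ((R.filter (fun r : ℕ => ¬ Nat.Coprime r (X z).natAbs)).card : ℤ) ≤
      ∑ p ∈ R, jacobiSym (m z.1 + m z.2) p * F p z.1 * G p z.2 := by
    intro z hz
    obtain ⟨hz1, hz2, hz3, hz4, hz5, hz6⟩ := hHmem z hz
    have h5 : ∀ p ∈ R, (1 : ℤ) - (if ¬ Nat.Coprime p (X z).natAbs then 1 else 0) ≤
        jacobiSym (m z.1 + m z.2) p * F p z.1 * G p z.2 := by
      intro p hp
      have h7 := hg' p hp z.1 (hJS hz1) z.2 (hJS hz2) hz3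
      have h8 : jacobiSym (m z.1 + m z.2) p * F p z.1 * G p z.2 = jacobiSym (X z) p := by
        rw [h7, hF, hG, hX]
        show jacobiSym (d z.1 z.2) p * g p z.1 * g p z.2 *
          (jacobiSym (d z.1 y0 * d x y0 * B) p * g p z.1) *
          (jacobiSym (d x z.2) p * g p z.2) =
          jacobiSym (d z.1 z.2 * d z.1 y0 * d x z.2 * d x y0 * B) p
        rw [jacobiSym.mul_left, jacobiSym.mul_left, jacobiSym.mul_left, jacobiSym.mul_left,
          jacobiSym.mul_left, jacobiSym.mul_left]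
        have h9 := hgsq p z.1
        have h10 := hgsq p z.2
        calc _ = (jacobiSym (d z.1 z.2) p * jacobiSym (d z.1 y0) p * jacobiSym (d x z.2) p *
              jacobiSym (d x y0) p * jacobiSym B p) * (g p z.1 * g p z.1) *
              (g p z.2 * g p z.2) := by ring
          _ = _ := by rw [h9, h10]; ring
      rw [h8]
      by_cases hc : Nat.Coprime p (X z).natAbs
      · rw [if_neg (not_not.2 hc), jac_sq_one hz6 hc]; norm_num
      · rw [if_pos hc]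
        have := jac_sq_nonneg p hz6
        linarith
    calc (R.card : ℤ) - ((R.filter (fun r : ℕ => ¬ Nat.Coprime r (X z).natAbs)).card : ℤ)
        = ∑ p ∈ R, ((1 : ℤ) - (if ¬ Nat.Coprime p (X z).natAbs then 1 else 0)) := by
          rw [sum_sub_distrib, sum_boole]; simp
      _ ≤ _ := sum_le_sum h5
  have hcnt : ∀ z ∈ H, ((R.filter (fun r : ℕ => ¬ Nat.Coprime r (X z).natAbs)).card : ℝ) ≤
      12 * (1 + Real.log N) := by
    intro z hz
    obtain ⟨hz1, hz2, hz3, hz4, hz5, hz6⟩ := hHmem z hz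
    have b1 := hd z.1 hz1 z.2 hz2 hz3
    have b2 := hd z.1 hz1 y0 hy0 hz4
    have b3 := hd x hx z.2 hz2 hz5
    have b4 := hd x hx y0 hy0 hxy
    have hX0 : X z ≠ 0 := by
      rw [hX]
      exact mul_ne_zero (mul_ne_zero (mul_ne_zero (mul_ne_zero b1.1 b2.1) b3.1) b4.1) hB0
    have hXle : |X z| ≤ 256 * (N : ℤ) ^ 8 := by
      rw [hX]
      show |d z.1 z.2 * d z.1 y0 * d x z.2 * d x y0 * B| ≤ 256 * (N : ℤ) ^ 8
      rw [abs_mul, abs_mul, abs_mul, abs_mul]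
      calc |d z.1 z.2| * |d z.1 y0| * |d x z.2| * |d x y0| * |B|
          ≤ (2 * N) * (2 * N) * (2 * N) * (2 * N) * (16 * (N : ℤ) ^ 4) := by
            gcongr
            · exact b1.2
            · exact b2.2
            · exact b3.2
            · exact b4.2
        _ = 256 * (N : ℤ) ^ 8 := by ring
    have hXr : |((X z : ℤ) : ℝ)| ≤ 256 * (N : ℝ) ^ 8 := by exact_mod_cast hXle
    have h8 := count_cop_real R hMR.2 (X z) hX0 _ hXr
    have hN0 : (0 : ℝ) < N := by linarith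
    have h9 : Real.log (256 * (N : ℝ) ^ 8) = 8 * Real.log 2 + 8 * Real.log N := by
      rw [Real.log_mul (by norm_num) (by positivity), Real.log_pow,
        show (256 : ℝ) = 2 ^ 8 by norm_num, Real.log_pow]
      push_cast
      ring
    rw [h9] at h8
    have hlog2' : Real.log 2 < 0.6932 := by
      have := Real.log_two_lt_d9; linarith
    have h10 : (0 : ℝ) ≤ (R.filter (fun r : ℕ => ¬ Nat.Coprime r (X z).natAbs)).card := by
      positivity
    nlinarith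
  obtain ⟨n, hn⟩ : ∃ n : ℝ, n = (R.card : ℝ) := ⟨_, rfl⟩
  obtain ⟨L, hL⟩ : ∃ L : ℝ, L = 1 + Real.log N := ⟨_, rfl⟩
  have hL1 : 1 ≤ L := by rw [hL]; linarith
  rw [← hn, ← hL] at hR
  have hn0 : 0 ≤ n := by rw [hn]; positivity
  have hT0 : 0 < T := by linarith
  have hn48 : 2400 * L ≤ n := by
    calc 2400 * L = 2400 * 1 * L := by ring
      _ ≤ (128 * C1 + 2400) * T * L := by
        apply mul_le_mul_of_nonneg_right _ (by positivity)
        apply mul_le_mul _ hT1 (by norm_num) (by linarith)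
        linarith
      _ ≤ n := hR
  have hnE : 32 * E ≤ n := by
    calc 32 * E = 32 * C1 * T * 1 := by rw [hEdef]; ring
      _ ≤ (128 * C1 + 2400) * T * L := by
        apply mul_le_mul _ hL1 (by norm_num) (by positivity)
        apply mul_le_mul_of_nonneg_right _ (by positivity)
        linarith
      _ ≤ n := hR
  have hlow : ∀ z ∈ H, (n / 2) ^ 2 ≤
      (((∑ p ∈ R, jacobiSym (m z.1 + m z.2) p * F p z.1 * G p z.2) ^ 2 : ℤ) : ℝ) := by
    intro z hz
    have h5 := hterm z hz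
    have h6 := hcnt z hz
    have h7 : (((R.card : ℤ) -
      ((R.filter (fun r : ℕ => ¬ Nat.Coprime r (X z).natAbs)).card : ℤ) : ℤ) : ℝ) ≤
      ((∑ p ∈ R, jacobiSym (m z.1 + m z.2) p * F p z.1 * G p z.2 : ℤ) : ℝ) := by
      exact_mod_cast h5
    rw [Int.cast_pow]
    rw [Int.cast_sub, Int.cast_natCast, Int.cast_natCast, ← hn] at h7
    rw [← hL] at h6
    have h8 : n / 2 ≤ ((∑ p ∈ R,
        jacobiSym (m z.1 + m z.2) p * F p z.1 * G p z.2 : ℤ) : ℝ) := by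
      refine le_trans ?_ h7
      linarith
    exact pow_le_pow_left₀ (by linarith) h8 2
  have hsumH : (H.card : ℝ) * (n / 2) ^ 2 ≤
      ((∑ i ∈ J, ∑ j ∈ J, (∑ p ∈ R,
        jacobiSym (m i + m j) p * F p i * G p j) ^ 2 : ℤ) : ℝ) := by
    calc (H.card : ℝ) * (n / 2) ^ 2 = ∑ _z ∈ H, (n / 2) ^ 2 := by
          rw [sum_const, nsmul_eq_mul]
      _ ≤ ∑ z ∈ H, (((∑ p ∈ R,
          jacobiSym (m z.1 + m z.2) p * F p z.1 * G p z.2) ^ 2 : ℤ) : ℝ) := sum_le_sum hlow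
      _ = ((∑ z ∈ H, (∑ p ∈ R,
          jacobiSym (m z.1 + m z.2) p * F p z.1 * G p z.2) ^ 2 : ℤ) : ℝ) := by
          rw [Int.cast_sum]
      _ ≤ ((∑ i ∈ J, ∑ j ∈ J, (∑ p ∈ R,
        jacobiSym (m i + m j) p * F p i * G p j) ^ 2 : ℤ) : ℝ) := by
          rw [Int.cast_le]
          rw [← sum_product']
          apply sum_le_sum_of_subset_of_nonneg
          · rw [hHdef]; exact filter_subset _ _
          · intro z _ _; positivity
  rw [← hW, ← hn] at hS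
  refine final_ineqR C1 T E n J.card H.card W hC1 hT1 hEdef (by linarith) ?_
    (le_trans hsumH hS) hH ?_ hnE
  · have : 0 < J.card := by omega
    exact_mod_cast this
  · refine le_trans ?_ hJ
    have h5 : 128 * E ≤ (128 * C1 + 2400) * T := by rw [hEdef]; nlinarith
    exact mul_le_mul_of_nonneg_right h5 (by linarith)

end Pool.Agent.Helper18.RD
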