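import Pool.Agent.Helper18.RD.Stmts6

/-! RUDIN 6, row MO1: positive bias of the 4-cycles at an unbalanced prime. -/

set_option autoImplicit false

namespace Pool.Agent.Helper27.RD6

open Finset Pool.Agent.Helper18.RD

/-- all 4-tuples -/
def F4 (S : Finset ℕ) : Finset (ℕ × ℕ × ℕ × ℕ) := S ×ˢ S ×ˢ S ×ˢ S

lemma card_F4 (S : Finset ℕ) : (F4 S).card = S.card ^ 4 := by
  simp only [F4, card_product]; ring

lemma T4_sub (S : Finset ℕ) : T4 S ⊆ F4 S := filter_subset _ _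

lemma mem_F4 (S : Finset ℕ) (t : ℕ × ℕ × ℕ × ℕ) :
    t ∈ F4 S ↔ t.1 ∈ S ∧ t.2.1 ∈ S ∧ t.2.2.1 ∈ S ∧ t.2.2.2 ∈ S := by
  simp [F4, mem_product]

lemma mem_T4 (S : Finset ℕ) (t : ℕ × ℕ × ℕ × ℕ) :
    t ∈ T4 S ↔ t ∈ F4 S ∧ t.1 ≠ t.2.2.1 ∧ t.1 ≠ t.2.2.2 ∧ t.2.1 ≠ t.2.2.1 ∧ t.2.1 ≠ t.2.2.2 := by
  simp [T4, F4]

/-- few degenerate tuples -/
lemma card_T4 (S : Finset ℕ) : S.card ^ 4 ≤ (T4 S).card + 4 * S.card ^ 3 := by
  classical
  set P := S ×ˢ S ×ˢ S with hP
  have hc : P.card = S.card ^ 3 := by simp only [hP, card_product]; ring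
  have hsub : F4 S ⊆ T4 S ∪ (P.image (fun u => (u.1, u.2.1, u.1, u.2.2)) ∪
      (P.image (fun u => (u.1, u.2.1, u.2.2, u.1)) ∪
      (P.image (fun u => (u.1, u.2.1, u.2.1, u.2.2)) ∪
      P.image (fun u => (u.1, u.2.1, u.2.2, u.2.1))))) := by
    rintro ⟨a, b, c, d⟩ ht
    obtain ⟨ha, hb, hc', hd⟩ := (mem_F4 _ _).1 ht
    dsimp only at ha hb hc' hd
    by_cases h1 : a = c
    · subst h1
      refine mem_union_right _ (mem_union_left _ (mem_image.2 ⟨(a, b, d), ?_, rfl⟩))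
      simp [hP, ha, hb, hd]
    by_cases h2 : a = d
    · subst h2
      refine mem_union_right _ (mem_union_right _ (mem_union_left _
        (mem_image.2 ⟨(a, b, c), ?_, rfl⟩)))
      simp [hP, ha, hb, hc']
    by_cases h3 : b = c
    · subst h3
      refine mem_union_right _ (mem_union_right _ (mem_union_right _ (mem_union_left _
        (mem_image.2 ⟨(a, b, d), ?_, rfl⟩))))
      simp [hP, ha, hb, hd]
    by_cases h4 : b = d
    · subst h4
      refine mem_union_right _ (mem_union_right _ (mem_union_right _ (mem_union_right _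
        (mem_image.2 ⟨(a, b, c), ?_, rfl⟩))))
      simp [hP, ha, hb, hc']
    · exact mem_union_left _ ((mem_T4 _ _).2 ⟨ht, h1, h2, h3, h4⟩)
  have h := card_le_card hsub
  rw [card_F4] at h
  have e1 := card_union_le (T4 S) (P.image (fun u => (u.1, u.2.1, u.1, u.2.2)) ∪
      (P.image (fun u => (u.1, u.2.1, u.2.2, u.1)) ∪
      (P.image (fun u => (u.1, u.2.1, u.2.1, u.2.2)) ∪
      P.image (fun u => (u.1, u.2.1, u.2.2, u.2.1)))))
  have e2 := card_union_le (P.image (fun u => (u.1, u.2.1, u.1, u.2.2)))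
      (P.image (fun u => (u.1, u.2.1, u.2.2, u.1)) ∪
      (P.image (fun u => (u.1, u.2.1, u.2.1, u.2.2)) ∪
      P.image (fun u => (u.1, u.2.1, u.2.2, u.2.1))))
  have e3 := card_union_le (P.image (fun u => (u.1, u.2.1, u.2.2, u.1)))
      (P.image (fun u => (u.1, u.2.1, u.2.1, u.2.2)) ∪
      P.image (fun u => (u.1, u.2.1, u.2.2, u.2.1)))
  have e4 := card_union_le (P.image (fun u => (u.1, u.2.1, u.2.1, u.2.2)))
      (P.image (fun u => (u.1, u.2.1, u.2.2, u.2.1)))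
  have i1 : (P.image (fun u => (u.1, u.2.1, u.1, u.2.2))).card ≤ P.card := card_image_le
  have i2 : (P.image (fun u => (u.1, u.2.1, u.2.2, u.1))).card ≤ P.card := card_image_le
  have i3 : (P.image (fun u => (u.1, u.2.1, u.2.1, u.2.2))).card ≤ P.card := card_image_le
  have i4 : (P.image (fun u => (u.1, u.2.1, u.2.2, u.2.1))).card ≤ P.card := card_image_le
  omega

lemma jac_ge (a : ℤ) (b : ℕ) : -1 ≤ jacobiSym a b := by
  rcases jacobiSym.trichotomy a b with h | h | h <;> omega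

lemma sq_one {x : ℤ} (h : x = 1 ∨ x = -1) : x * x = 1 := by
  rcases h with h | h <;> subst h <;> norm_num

/-- the general bound: a majority on which all cycles are positive -/
lemma key (J X : Finset ℕ) (d : ℕ → ℕ → ℤ) (p : ℕ) (hX : X ⊆ J) (hJ : 16 ≤ J.card)
    (hx : 15 * J.card < 16 * X.card) (h1 : ∀ t ∈ T4 X, jacobiSym (cyc d t) p = 1) :
    (J.card : ℤ) ^ 4 ≤ 4 * ∑ t ∈ T4 J, jacobiSym (cyc d t) p := by
  classical
  have hsub : T4 X ⊆ T4 J := by
    intro t ht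
    rw [mem_T4] at ht ⊢
    refine ⟨?_, ht.2⟩
    rw [mem_F4] at *
    exact ⟨hX ht.1.1, hX ht.1.2.1, hX ht.1.2.2.1, hX ht.1.2.2.2⟩
  rw [← sum_sdiff hsub]
  have e1 : ∑ t ∈ T4 X, jacobiSym (cyc d t) p = ((T4 X).card : ℤ) := by
    rw [sum_congr rfl h1]; simp
  have e2 : -(((T4 J \ T4 X).card : ℕ) : ℤ) ≤ ∑ t ∈ T4 J \ T4 X, jacobiSym (cyc d t) p := by
    have := sum_le_sum (s := T4 J \ T4 X) (f := fun _ => (-1 : ℤ))
      (g := fun t => jacobiSym (cyc d t) p) (fun t _ => jac_ge _ _)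
    simpa using this
  have e3 : (T4 J \ T4 X).card + X.card ^ 4 ≤ J.card ^ 4 := by
    have hs : T4 J \ T4 X ⊆ F4 J \ F4 X := by
      intro t ht
      rw [mem_sdiff] at ht ⊢
      refine ⟨T4_sub _ ht.1, fun h => ht.2 ?_⟩
      rw [mem_T4]
      exact ⟨h, ((mem_T4 _ _).1 ht.1).2⟩
    have hF : F4 X ⊆ F4 J := by
      intro t ht
      rw [mem_F4] at *
      exact ⟨hX ht.1, hX ht.2.1, hX ht.2.2.1, hX ht.2.2.2⟩
    have h := card_le_card hs
    have h' := card_sdiff_add_card_eq_card hF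
    rw [card_F4, card_F4] at h'
    omega
  have e4 := card_T4 X
  have e3' : (((T4 J \ T4 X).card : ℕ) : ℤ) + (X.card : ℤ) ^ 4 ≤ (J.card : ℤ) ^ 4 := by
    exact_mod_cast e3
  have e4' : (X.card : ℤ) ^ 4 ≤ ((T4 X).card : ℤ) + 4 * (X.card : ℤ) ^ 3 := by exact_mod_cast e4
  have hJ' : (16 : ℤ) ≤ J.card := by exact_mod_cast hJ
  have hx' : 15 * (J.card : ℤ) ≤ 16 * X.card := by
    have : 15 * (J.card : ℤ) < 16 * X.card := by exact_mod_cast hx
    exact this.le
  generalize (X.card : ℤ) = x at *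
  generalize (J.card : ℤ) = j at *
  have k1 : 13 * j ≤ 16 * (x - 2) := by linarith
  have x0 : 0 ≤ x := by linarith
  have j0 : 0 ≤ j := by linarith
  have k2 : (15 * j) ^ 3 ≤ (16 * x) ^ 3 := pow_le_pow_left₀ (by linarith) hx' 3
  have k3 : (15 * j) ^ 3 * (13 * j) ≤ (16 * x) ^ 3 * (16 * (x - 2)) :=
    mul_le_mul k2 k1 (by linarith) (pow_nonneg (by linarith) 3)
  have k4 : 0 ≤ j ^ 4 := by positivity
  rw [e1]
  nlinarith

theorem st_MO1 : ST_MO1 := by
  classical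
  intro N q p S J e c d k w hD hJS hJ hp hB
  obtain ⟨f, lam, mu, hf, hlam, hmu, hch⟩ := hD.chi p hp
  have hsum : (J.filter (fun n => e n p = 1)).card + (J.filter (fun n => e n p = -1)).card
      = J.card := by
    rw [← card_union_of_disjoint]
    · congr 1
      ext n
      simp only [mem_union, mem_filter]
      constructor
      · rintro (h | h) <;> exact h.1
      · intro h
        rcases hD.sgn n p with h' | h'
        · exact Or.inl ⟨h, h'⟩
        · exact Or.inr ⟨h, h'⟩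
    · rw [disjoint_left]
      intro n h1 h2
      rw [mem_filter] at h1 h2
      omega
  have main : ∀ s : ℤ, 15 * J.card < 16 * (J.filter (fun n => e n p = s)).card →
      (J.card : ℤ) ^ 4 ≤ 4 * ∑ t ∈ T4 J, jacobiSym (cyc d t) p := by
    intro s hs
    refine key J (J.filter (fun n => e n p = s)) d p (filter_subset _ _) hJ hs ?_
    rintro ⟨n1, n2, n3, n4⟩ ht
    rw [mem_T4, mem_F4] at ht
    simp only [mem_filter] at ht
    obtain ⟨⟨⟨a1, b1⟩, ⟨a2, b2⟩, ⟨a3, b3⟩, ⟨a4, b4⟩⟩, n13, n14, n23, n24⟩ := ht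
    have c13 := (hch n1 (hJS a1) n3 (hJS a3) n13).1 (by rw [b1, b3])
    have c14 := (hch n1 (hJS a1) n4 (hJS a4) n14).1 (by rw [b1, b4])
    have c23 := (hch n2 (hJS a2) n3 (hJS a3) n23).1 (by rw [b2, b3])
    have c24 := (hch n2 (hJS a2) n4 (hJS a4) n24).1 (by rw [b2, b4])
    simp only [cyc, jacobiSym.mul_left, c13, c14, c23, c24, b1, b2]
    have l := sq_one (hlam s)
    have f1 := sq_one (hf n1)
    have f2 := sq_one (hf n2)
    have f3 := sq_one (hf n3)
    have f4 := sq_one (hf n4)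
    calc lam s * f n1 * f n3 * (lam s * f n1 * f n4) * (lam s * f n2 * f n3) *
          (lam s * f n2 * f n4) = (lam s * lam s) * (lam s * lam s) * (f n1 * f n1) *
          (f n2 * f n2) * (f n3 * f n3) * (f n4 * f n4) := by ring
      _ = 1 := by rw [l, f1, f2, f3, f4]; norm_num
  unfold Bal6 at hB
  rw [not_and_or] at hB
  rcases hB with hB | hB
  · exact main (-1) (by omega)
  · exact main 1 (by omega)

end Pool.Agent.Helper27.RD6
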